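import Pool.Agent.Lib.MP_95bdb0_co.Final

/-!
The worst-case ratio for connected bipartite Turan numbers of trees equals one third.
-/

namespace Pool.Agent.Results.MP_95bdb0_co.GammaBC

open Filter Topology Pool.Agent.Lib.MP_95bdb0_co
open scoped ENNReal

theorem result :
    Tendsto (fun k : ℕ => ⨅ (m : ℕ) (_ : k ≤ m) (T : SimpleGraph (Fin m)) (_ : T.IsTree),
      gammaConn T) atTop (𝓝 (1 / 3 : ℝ≥0∞)) :=
  main

end Pool.Agent.Results.MP_95bdb0_co.GammaBC
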