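import Pool.Agent.Lib.MP_95bdb0_co.Ratio

/-!
The worst-case ratio of the connected and the unrestricted bipartite Turan numbers of trees
equals one half.
-/

namespace Pool.Agent.Results.MP_95bdb0_co.GammaRatio

open Filter Topology Pool.Agent.Lib.MP_95bdb0_co
open scoped ENNReal

theorem result :
    Tendsto (fun k : ℕ => ⨅ (m : ℕ) (_ : k ≤ m) (T : SimpleGraph (Fin m)) (_ : T.IsTree),
      gammaRatio T) atTop (𝓝 (1 / 2 : ℝ≥0∞)) :=
  ratio_main

end Pool.Agent.Results.MP_95bdb0_co.GammaRatio
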